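import Pool.Agent.N97.TB.Coord
import Pool.Agent.N132.HT.Index

/-!
# TB/7: the conjectures of Tate and Hodge for powers
-/

set_option linter.unusedSectionVars false

open CategoryTheory AlgebraicGeometry TensorProduct

universe u

namespace Pool.Agent.N97.TB.Glue

open Module
open Pool.Agent.H914 Pool.Agent.H914.VarClass Pool.Agent.H914.VarClass.Obj
  Pool.Agent.H914.WeilCohomology
open Pool.Agent.Y121.AHS
open Pool.Agent.Y121.AH (em em_gr em_add em_zero em_smul em_mul em_map em_push hodgePred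
  mem_of_em_mem)
open Pool.Agent.Y133.Half (pw Sys ClassPred algSys)
open Pool.Agent.N132.Lit (IsCycCl Comb)
open Pool.Agent.N132.HT (tatePred base_ind ind_em)
open Pool.Agent.Y132.AH (GaloisData isTate_map)
open Pool.Agent.N996.BP
open Pool.Agent.N996.BP.Geo (up down up_down)
open Pool.Agent.N202.TB
open Pool.Agent.N97.TB.Coord (toG)

variable {k : Type u} [Field k] {𝒱 : VarClass k} {ops : CycleOps 𝒱}

section General

variable {W : WeilCohomology.{u, 0} ops} {L : Type} [Field L] [Algebra W.K L] {X Y Z : 𝒱.Obj}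

lemma em_proj (c : W.H Z) (i : ℕ) : em W L (H914.proj (W.isInternal Z) i c) =
    H914.proj ((baseW W L).isInternal Z) i (em W L c) := by
  refine gr_induction (W.isInternal Z) (p := fun c => em W L (H914.proj (W.isInternal Z) i c)
    = H914.proj ((baseW W L).isInternal Z) i (em W L c)) ?_ ?_ c
  · intro j c hc
    by_cases h : j = i
    · subst h
      rw [proj_same _ hc, proj_same _ (em_gr hc)]
    · rw [proj_ne _ hc h, proj_ne _ (em_gr hc) h, em_zero]
  · intro a b ha hb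
    rw [map_add, em_add, ha, hb, em_add, map_add]

/-- The homogeneous elements of the extended system. -/
lemma comb_of_base (Q : ClassPred W) {x : (baseW W L).H Z} (hx : x ∈ (Q.sys.base L).C Z) {j : ℕ}
    (hj : x ∈ (baseW W L).gr Z (2 * j)) :
    x ∈ Submodule.span (baseW W L).K {y | ∃ a, Q.P Z j a ∧ em W L a = y} := by
  have key : H914.proj ((baseW W L).isInternal Z) (2 * j) x ∈
      Submodule.span (baseW W L).K {y | ∃ a, Q.P Z j a ∧ em W L a = y} := by
    refine base_ind (p := Q.sys.C Z) (q := fun x =>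
      H914.proj ((baseW W L).isInternal Z) (2 * j) x ∈
        Submodule.span (baseW W L).K {y | ∃ a, Q.P Z j a ∧ em W L a = y}) ?_ ?_ ?_ hx
    · rw [map_zero]; exact Submodule.zero_mem _
    · intro x y hx hy; rw [map_add]; exact Submodule.add_mem _ hx hy
    · intro l a ha
      rw [map_smul, ← em_proj]
      exact Submodule.smul_mem _ _ (Submodule.subset_span ⟨_, ClassPred.sp_proj (Q := Q) ha j, rfl⟩)
  rwa [proj_same _ hj] at key

lemma base_of_comb (Q : ClassPred W) {x : (baseW W L).H Z} {j : ℕ}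
    (hx : x ∈ Submodule.span (baseW W L).K {y | ∃ a, Q.P Z j a ∧ em W L a = y}) :
    x ∈ (Q.sys.base L).C Z := by
  refine Submodule.span_le.2 ?_ hx
  rintro _ ⟨a, ha, rfl⟩
  exact Submodule.tmul_mem_baseChange_of_mem (1 : L) (ClassPred.sp_of (Q := Q) ha)

lemma pred_of_sp {Q : ClassPred W} {x : W.H Z} (hx : x ∈ Q.sp Z) {j : ℕ}
    (hj : x ∈ W.gr Z (2 * j)) : Q.P Z j x := by
  have h1 := ClassPred.sp_proj (Q := Q) hx j
  rwa [proj_same _ hj] at h1

lemma em_corr (c : W.H (X.prod Y)) (x : W.H X) :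
    em W L (W.corr c x) = (baseW W L).corr (em W L c) (em W L x) := by
  rw [corr_apply, corr_apply, em_map, ← em_mul, em_push]

lemma em_corr_sum {α : Type*} (s : Finset α) (f : α → W.H Z) :
    em W L (∑ i ∈ s, f i) = ∑ i ∈ s, em W L (f i) := by
  classical
  induction s using Finset.induction_on with
  | empty => rw [Finset.sum_empty, Finset.sum_empty, em_zero]
  | insert a s ha ih => rw [Finset.sum_insert ha, Finset.sum_insert ha, em_add, ih]

end General

section

variable {T : HodgeTheory ops} {ℓ : ℕ} [Fact ℓ.Prime] [Algebra T.W.K ℚ_[ℓ]] {E : Realization T ℓ}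
  {X Y Z : 𝒱.Obj}

/-- The pull-back of the class of a cycle is the class of a cycle. -/
lemma cyc_map (f : X ⟶ Y) {j : ℕ} {c : T.W.H Y} (hc : IsCycCl T.W Y j c) :
    IsCycCl T.W X j (T.W.map f c) := by
  obtain ⟨z, hz, rfl⟩ := hc
  have h1 : T.W.map f (T.W.cl Y z) ∈ (algSys T.W).C X :=
    (algSys T.W).map f (Submodule.subset_span (Set.mem_iUnion.2 ⟨j, z, hz, rfl⟩))
  exact exists_cyc (Pool.Agent.Y133.Half.spanCycles_of_algSpan h1 (T.W.map_mem f (T.W.cl_mem hz)))

/-- The property to be a Hodge class. -/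
noncomputable def hp (T : HodgeTheory ops) : ClassPred T.W := hodgePred (toH T)

/-- (1) -/
lemma tateIsHodge_of_conj (h : TateConjecture E Y) : TateIsHodge E Y := by
  intro j x hx
  refine Submodule.span_mono ?_ (h j x hx)
  rintro _ ⟨a, ⟨z, hz, rfl⟩, rfl⟩
  exact ⟨_, T.cyc Y j z hz, rfl⟩

/-- (2) -/
lemma tate_mono {n N : ℕ} (h : n ≤ N) (hN : TateConjecture E (pw X N)) :
    TateConjecture E (pw X n) := by
  intro j x' hx
  let V := baseW T.W ℚ_[ℓ]
  obtain ⟨x, rfl⟩ : ∃ x : V.H (pw X n), x = x' := ⟨x', rfl⟩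
  have h1 : IsTate E (pw X N) j (V.map (down X h) x) := isTate_map (toG E) (down X h) hx
  have h2 := hN j _ h1
  have h3 : x = V.map (up X n N) (V.map (down X h) x) := by
    rw [← V.map_comp, up_down, V.map_id]
  have key : ∀ y : V.H (pw X N),
      y ∈ Submodule.span V.K {y | ∃ a, IsCycCl T.W (pw X N) j a ∧ em T.W ℚ_[ℓ] a = y} →
      V.map (up X n N) y ∈
        Submodule.span V.K {y | ∃ a, IsCycCl T.W (pw X n) j a ∧ em T.W ℚ_[ℓ] a = y} := by
    intro y hy
    induction hy using Submodule.span_induction with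
    | mem y hy =>
      obtain ⟨a, ha, rfl⟩ := hy
      rw [em_map]
      exact Submodule.subset_span ⟨_, cyc_map _ ha, rfl⟩
    | zero => rw [map_zero]; exact Submodule.zero_mem _
    | add a b _ _ ha hb => rw [map_add]; exact Submodule.add_mem _ ha hb
    | smul r a _ ha => rw [map_smul]; exact Submodule.smul_mem _ _ ha
  have h4 := key _ h2
  rw [← h3] at h4
  exact h4

/-- (3) -/
lemma tate_of_hodge (h : TateIsHodge E Y) (hY : HodgeConjecture T Y) : TateConjecture E Y := by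
  intro j x hx
  refine Submodule.span_mono ?_ (h j x hx)
  rintro _ ⟨a, ha, rfl⟩
  exact ⟨a, hY j a ha, rfl⟩

lemma hodge_of_tate (h : HodgeIsTate E Y) (hY : TateConjecture E Y) : HodgeConjecture T Y := by
  intro j c hc
  have h1 := hY j _ (h j c hc)
  have h2 : ((1 : ℚ_[ℓ]) ⊗ₜ[T.W.K] c) ∈ (spanCycles T.W Y j).baseChange ℚ_[ℓ] := by
    refine Submodule.span_le.2 ?_ h1
    rintro _ ⟨a, ⟨z, hz, rfl⟩, rfl⟩
    exact Submodule.tmul_mem_baseChange_of_mem (1 : ℚ_[ℓ])
      (Submodule.subset_span ⟨j, rfl, z, hz, rfl⟩)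
  exact exists_cyc (mem_of_em_mem h2)

/-- The Tate classes belong to the extension of the system of Hodge classes. -/
lemma tate_le (h : TateIsHodge E Y) : (tatePred (toG E)).sys.C Y ≤
    (((hp T).sys).base ℚ_[ℓ]).C Y := by
  intro x hx
  refine ClassPred.sp_ind (Q := tatePred (toG E)) (q := fun x => x ∈
    (((hp T).sys).base ℚ_[ℓ]).C Y) ?_ ?_ ?_ hx
  · intro j x hx
    exact base_of_comb (hp T) (h j x hx)
  · exact Submodule.zero_mem _
  · intro a b ha hb; exact Submodule.add_mem _ ha hb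

lemma hodge_mem (h : HodgeIsTate E Y) {c : T.W.H Y} (hc : c ∈ (hp T).sp Y) :
    em T.W ℚ_[ℓ] c ∈ (tatePred (toG E)).sys.C Y := by
  refine ClassPred.sp_ind (Q := hp T) (q := fun c => em T.W ℚ_[ℓ] c ∈
    (tatePred (toG E)).sys.C Y) ?_ ?_ ?_ hc
  · intro j c hc
    exact ClassPred.sp_of (Q := tatePred (toG E)) (h j c hc)
  · rw [em_zero]; exact Submodule.zero_mem _
  · intro a b ha hb; rw [em_add]; exact Submodule.add_mem _ ha hb

lemma cl_tate {j : ℕ} {z : Z.Cycles} (hz : Z.IsCyc j z) :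
    em T.W ℚ_[ℓ] (T.W.cl Z z) ∈ (tatePred (toG E)).sys.C Z :=
  ClassPred.sp_of (Q := tatePred (toG E)) ((tatePred (toG E)).cl hz)

/-- (4) -/
lemma from_hodgeIsTate (hX : ∀ n, HodgeIsTate E (pw X n)) (hY : FromPowers T X Y) :
    HodgeIsTate E Y := by
  obtain ⟨r, m, a, b, u, v, huv, hid⟩ := hY
  intro j c hc
  have hc' : c ∈ (hp T).sp Y := ClassPred.sp_of (Q := hp T) hc
  have h1 : em T.W ℚ_[ℓ] c ∈ (tatePred (toG E)).sys.C Y := by
    have h2 : c = ∑ i, T.W.corr (T.W.cl _ (v i)) (T.W.corr (T.W.cl _ (u i)) c) := (hid c).symm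
    have h3 : em T.W ℚ_[ℓ] c =
        ∑ i, em T.W ℚ_[ℓ] (T.W.corr (T.W.cl _ (v i)) (T.W.corr (T.W.cl _ (u i)) c)) := by
      conv_lhs => rw [h2]
      exact em_corr_sum _ _
    rw [h3]
    refine Submodule.sum_mem _ fun i _ => ?_
    rw [em_corr]
    have hu : T.W.corr (T.W.cl _ (u i)) c ∈ (hp T).sp (pw X (m i)) := by
      have h1 : T.W.corr (T.W.cl _ (u i)) ∈ (hp T).sys.Op Y (pw X (m i)) :=
        Sys.Op.corr (ClassPred.sp_of (Q := hp T) ((hp T).cl (huv i).1))
      exact Sys.Op.apply (fun _ => le_rfl) h1 hc'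
    exact Sys.Op.apply (fun _ => le_rfl) (Sys.Op.corr (cl_tate (huv i).2)) (hodge_mem (hX _) hu)
  exact pred_of_sp (Q := tatePred (toG E)) h1 (em_gr hc.1)

lemma from_tateIsHodge (hX : ∀ n, TateIsHodge E (pw X n)) (hY : FromPowers T X Y) :
    TateIsHodge E Y := by
  obtain ⟨r, m, a, b, u, v, huv, hid⟩ := hY
  intro j x hx
  let V := baseW T.W ℚ_[ℓ]
  have hidV : ∀ x : V.H Y, ∑ i, V.corr (em T.W ℚ_[ℓ] (T.W.cl _ (v i)))
      (V.corr (em T.W ℚ_[ℓ] (T.W.cl _ (u i))) x) = x := by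
    intro x
    refine ind_em (q := fun x => ∑ i, V.corr (em T.W ℚ_[ℓ] (T.W.cl _ (v i)))
      (V.corr (em T.W ℚ_[ℓ] (T.W.cl _ (u i))) x) = x) ?_ ?_ ?_ x
    · simp only [map_zero, Finset.sum_const_zero]
    · intro x y hx hy
      simp only [map_add, Finset.sum_add_distrib, hx, hy]
    · intro l c
      simp only [map_smul]
      rw [← Finset.smul_sum]
      congr 1
      simp only [V, ← em_corr]
      rw [← em_corr_sum]
      congr 1
      exact hid c
  have hx' : x ∈ (tatePred (toG E)).sys.C Y := ClassPred.sp_of (Q := tatePred (toG E)) hx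
  have h1 : x ∈ (((hp T).sys).base ℚ_[ℓ]).C Y := by
    rw [← hidV x]
    refine Submodule.sum_mem _ fun i _ => ?_
    have h2 : V.corr (em T.W ℚ_[ℓ] (T.W.cl _ (u i))) x ∈
        (tatePred (toG E)).sys.C (pw X (m i)) :=
      Sys.Op.apply (fun _ => le_rfl) (Sys.Op.corr (cl_tate (huv i).1)) hx'
    have h3 := tate_le (hX (m i)) h2
    have h4 : em T.W ℚ_[ℓ] (T.W.cl _ (v i)) ∈
        (((hp T).sys).base ℚ_[ℓ]).C ((pw X (m i)).prod Y) :=
      Submodule.tmul_mem_baseChange_of_mem (1 : ℚ_[ℓ])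
        (ClassPred.sp_of (Q := hp T) ((hp T).cl (huv i).2))
    exact Sys.Op.apply (fun _ => le_rfl) (Sys.Op.corr h4) h3
  exact comb_of_base (hp T) h1 hx.1

end

/-- **TB/7.** -/
theorem glue (T : HodgeTheory ops) (ℓ : ℕ) [Fact ℓ.Prime] [Algebra T.W.K ℚ_[ℓ]] (X : 𝒱.Obj) :
    S_GLUE T ℓ X := by
  intro E ψ hψ hX
  refine ⟨tateIsHodge_of_conj, fun N n h hN => tate_mono h hN, fun hT => ?_⟩
  have h1 : ∀ n, TateConjecture E (pw X n) ↔ HodgeConjecture T (pw X n) := fun n =>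
    ⟨hodge_of_tate (hX n), tate_of_hodge (hT n)⟩
  have h2 : ∀ Y, FromPowers T X Y → (TateConjecture E Y ↔ HodgeConjecture T Y) := fun Y hY =>
    ⟨hodge_of_tate (from_hodgeIsTate hX hY), tate_of_hodge (from_tateIsHodge hT hY)⟩
  refine ⟨h1, h2, fun hN => ?_⟩
  have h3 : ∀ n, HodgeConjecture T (pw X n) := hodge_pw hψ ((h1 _).1 hN)
  exact ⟨fun n => ⟨(h1 n).2 (h3 n), h3 n⟩, fun Y hY =>
    ⟨(h2 Y hY).2 (hodge_from h3 hY), hodge_from h3 hY⟩⟩

end Pool.Agent.N97.TB.Glue
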