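import Pool.Agent.N97.TB.CoordV

/-!
# TB/5: the `ℓ`-adic classes on the powers in coordinates
-/

set_option linter.unusedSectionVars false

open CategoryTheory AlgebraicGeometry TensorProduct

universe u

namespace Pool.Agent.N97.TB.Coord

open Module
open Pool.Agent.H914 Pool.Agent.H914.VarClass Pool.Agent.H914.VarClass.Obj
  Pool.Agent.H914.WeilCohomology
open Pool.Agent.Y121.AHS
open Pool.Agent.Y121.AH (em em_gr)
open Pool.Agent.Y133.Half (pw wb)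
open Pool.Agent.N132.Lit (GalOn toAct TateVec)
open Pool.Agent.Y132.AH (GaloisData GalAlg)
open Pool.Agent.TH125.Gal (IsGaloisAct)
open Pool.Agent.N996.BP (kp)
open Pool.Agent.N202.TB

variable {k : Type u} [Field k] {𝒱 : VarClass k} {ops : CycleOps 𝒱}

section Conv

variable {T : HodgeTheory ops} {ℓ : ℕ} [Fact ℓ.Prime] [Algebra T.W.K ℚ_[ℓ]] (E : Realization T ℓ)

/-- The character. -/
def chi : E.Γ →* (ℚ_[ℓ])ˣ where
  toFun g := ⟨E.χ g, E.χ g⁻¹, by rw [← E.mul, mul_inv_cancel, E.one],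
    by rw [← E.mul, inv_mul_cancel, E.one]⟩
  map_one' := Units.ext E.one
  map_mul' g h := Units.ext (E.mul g h)

/-- The character with values in the coefficients of the extended theory. -/
def chi' : E.Γ →* (baseW T.W ℚ_[ℓ]).Kˣ := chi E

/-- The action on the cohomology of the extended theory. -/
noncomputable def toAct' (X : 𝒱.Obj) :
    E.Γ →* ((baseW T.W ℚ_[ℓ]).H X ≃ₐ[(baseW T.W ℚ_[ℓ]).K] (baseW T.W ℚ_[ℓ]).H X) :=
  toAct (K := T.W.K) (L := ℚ_[ℓ]) (A := T.W.H X) (E.R X)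

theorem galois (X : 𝒱.Obj) : IsGaloisAct (chi' E) ((baseW T.W ℚ_[ℓ]).gr X) X.dim
    ((baseW T.W ℚ_[ℓ]).tr X) (algClasses (baseW T.W ℚ_[ℓ]) X) (toAct' E X) where
  gr_mem g i x hx := (E.R X).deg g i x hx
  tr_act g x := (E.R X).trace g x
  cl_act g j c hc := by
    obtain ⟨z, hz, rfl⟩ := hc
    obtain ⟨c', ⟨z', hz', rfl⟩, h⟩ := (E.R X).conj g j _ ⟨z, hz, rfl⟩
    exact ⟨_, ⟨z', hz', rfl⟩, h⟩
  cl_fix j c hc := by
    obtain ⟨z, hz, rfl⟩ := hc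
    exact (E.R X).fix j _ ⟨z, hz, rfl⟩

theorem act_map {X Y : 𝒱.Obj} (f : X ⟶ Y) (g : E.Γ) (y : (baseW T.W ℚ_[ℓ]).H Y) :
    toAct' E X g ((baseW T.W ℚ_[ℓ]).map f y) = (baseW T.W ℚ_[ℓ]).map f (toAct' E Y g y) := by
  have h1 := map_eq T.W ℚ_[ℓ] f y
  have h2 := map_eq T.W ℚ_[ℓ] f ((E.R Y).ρ g y)
  have h3 := E.map X Y f g y
  have h4 := congrArg (fun z => toAct' E X g z) h1
  exact h4.trans (h3.trans h2.symm)

/-- The conversion of the Galois actions. -/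
noncomputable def toG : GaloisData (baseW T.W ℚ_[ℓ]) E.Γ where
  χ := chi' E
  on X := ⟨toAct' E X, galois E X⟩
  isGalMap {X Y} f g y := act_map E f g y

theorem isTate_iff (X : 𝒱.Obj) (j : ℕ) (x : (baseW T.W ℚ_[ℓ]).H X) :
    Pool.Agent.Y132.AH.IsTate (toG E) X j x ↔ IsTate E X j x := Iff.rfl

end Conv

/-- **TB/5.** -/
theorem coord (T : HodgeTheory ops) (ℓ : ℕ) [Fact ℓ.Prime] [Algebra T.W.K ℚ_[ℓ]] (X : 𝒱.Obj) :
    S_COORD T ℓ X := by
  intro E ι _ _ e deg he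
  have hcl : ∀ n (a : (Fin (n + 1) → ι) → ℚ_[ℓ]),
      clL (ℓ := ℓ) e n a = cmb ℚ_[ℓ] (wb e n) a := fun n a => rfl
  obtain ⟨G, hGdef⟩ : ∃ G : E.Γ → Matrix ι ι ℚ_[ℓ], ∀ g, G g = mt e (toAct' E X g) :=
    ⟨fun g => mt e (toAct' E X g), fun g => rfl⟩
  have hM : ∀ g, IsMat (W := T.W) (L := ℚ_[ℓ]) (fun Z => toAct' E Z g) X e (G g) := by
    intro g j
    rw [hGdef]
    exact mt_spec e (toAct' E X g) j
  have hG : ∀ g j, toAct' E X g (em T.W ℚ_[ℓ] (e j)) = cmb ℚ_[ℓ] e (fun i => G g i j) := hM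
  have hw : ∀ n g (a : (Fin (n + 1) → ι) → ℚ_[ℓ]), toAct' E (pw X n) g (cmb ℚ_[ℓ] (wb e n) a) =
      cmb ℚ_[ℓ] (wb e n) (Matrix.mulVec (kp (Fin (n + 1)) (G g)) a) := by
    intro n g a
    exact isMat_cmb (R := fun Z => toAct' E Z g) (wb e n)
      (isMat_wb e (fun f x => act_map E f g x) (hM g) n) a
  have hact1 : ∀ x, toAct' E X 1 x = x := fun x => (E.R X).one x
  have hactm : ∀ g h x, toAct' E X (g * h) x = toAct' E X g (toAct' E X h x) :=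
    fun g h x => (E.R X).mul g h x
  have hArr : GalArr deg G E.χ := by
    refine ⟨?_, ?_, E.one, E.mul, ?_, ?_⟩
    · ext i j
      have h1 : cmb ℚ_[ℓ] e (fun i => G 1 i j) = cmb ℚ_[ℓ] e (Pi.single j 1) := by
        rw [← hG, hact1, cmb_single]
      have h2 := congrFun (cmb_inj e h1) i
      rw [Matrix.one_apply]
      refine h2.trans ?_
      rw [Pi.single_apply]
    · intro g h
      ext i j
      have h1 : cmb ℚ_[ℓ] e (fun i => G (g * h) i j) =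
          cmb ℚ_[ℓ] e (Matrix.mulVec (G g) (fun k => G h k j)) := by
        rw [← hG, hactm, hG]
        exact isMat_cmb (R := fun Z => toAct' E Z g) e (hM g) _
      have h2 := congrFun (cmb_inj e h1) i
      exact h2
    · intro g i j hij
      have h1 : toAct' E X g (em T.W ℚ_[ℓ] (e j)) ∈ (baseW T.W ℚ_[ℓ]).gr X (deg j) :=
        (galois E X).gr_mem g _ _ (em_gr (he j))
      rw [hG] at h1
      exact (cmb_gr e he _ _).1 h1 i hij
    · intro ε hε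
      have hcoord : ∀ (i : ι) (z : ι → ℚ_[ℓ]),
          (e.baseChange ℚ_[ℓ]).coord i (show ℚ_[ℓ] ⊗[T.W.K] T.W.H X from cmb ℚ_[ℓ] e z) = z i := by
        intro i z
        have h1 := cmb_eq (L := ℚ_[ℓ]) e z
        have h2 : (e.baseChange ℚ_[ℓ]).coord i ((e.baseChange ℚ_[ℓ]).equivFun.symm z) = z i := by
          simp
        exact (congrArg (fun x => (e.baseChange ℚ_[ℓ]).coord i x) h1).trans h2
      have h1 : ∀ p : ι × ι, ∃ Δ : Subgroup E.Γ, Δ.FiniteIndex ∧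
          ∀ g ∈ Δ, ‖G g p.1 p.2 - (1 : Matrix ι ι ℚ_[ℓ]) p.1 p.2‖ < ε := by
        intro p
        obtain ⟨Δ, hΔ, h⟩ := E.cont X (emL T.W ℚ_[ℓ] (e p.2))
          ((e.baseChange ℚ_[ℓ]).coord p.1) ε hε
        refine ⟨Δ, hΔ, fun g hg => ?_⟩
        have h2 := h g hg
        have h3 : (e.baseChange ℚ_[ℓ]).coord p.1
            (show ℚ_[ℓ] ⊗[T.W.K] T.W.H X from (E.R X).ρ g (emL T.W ℚ_[ℓ] (e p.2))) =
            G g p.1 p.2 :=
          (congrArg (fun x : (baseW T.W ℚ_[ℓ]).H X => (e.baseChange ℚ_[ℓ]).coord p.1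
            (show ℚ_[ℓ] ⊗[T.W.K] T.W.H X from x)) (hG g p.2)).trans (hcoord _ _)
        have h4 : (e.baseChange ℚ_[ℓ]).coord p.1
            (show ℚ_[ℓ] ⊗[T.W.K] T.W.H X from emL T.W ℚ_[ℓ] (e p.2)) =
            (1 : Matrix ι ι ℚ_[ℓ]) p.1 p.2 := by
          have h5 := hcoord p.1 (Pi.single p.2 1)
          have h6 : (Pi.single p.2 1 : ι → ℚ_[ℓ]) p.1 = (1 : Matrix ι ι ℚ_[ℓ]) p.1 p.2 := by
            rw [Pi.single_apply, Matrix.one_apply]
          rw [← h6, ← h5]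
          exact (congrArg (fun x : (baseW T.W ℚ_[ℓ]).H X => (e.baseChange ℚ_[ℓ]).coord p.1
            (show ℚ_[ℓ] ⊗[T.W.K] T.W.H X from x)) (cmb_single (L := ℚ_[ℓ]) e p.2)).symm
        rw [← h3, ← h4]
        exact h2
      choose Δ hΔ hΔ' using h1
      obtain ⟨Δχ, hχ, hχ'⟩ := E.contχ ε hε
      have hi : (⨅ p, Δ p).FiniteIndex := Subgroup.finiteIndex_iInf hΔ
      refine ⟨(⨅ p, Δ p) ⊓ Δχ, inferInstance, fun g hg => ⟨fun i j => ?_, hχ' g hg.2⟩⟩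
      exact hΔ' (i, j) g ((Subgroup.mem_iInf.1 hg.1) (i, j))
  refine ⟨fun n => cmb_bij (wb e n), G, hArr, hM, hw, ?_⟩
  intro n j a
  have hdeg := cmb_gr (L := ℚ_[ℓ]) (wb e n) (wb_gr e he n) a (2 * j)
  have hfix : ∀ g, (E.R (pw X n)).ρ g (clL e n a) =
      Pool.Agent.Y121.AHS.extTw T.W.K ℚ_[ℓ] (E.χ g) j (clL e n a) ↔
        Matrix.mulVec (kp (Fin (n + 1)) (G g)) a = E.χ g ^ j • a := by
    intro g
    have h1 : (E.R (pw X n)).ρ g (clL e n a) =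
        cmb ℚ_[ℓ] (wb e n) (Matrix.mulVec (kp (Fin (n + 1)) (G g)) a) := hw n g a
    have h2 : Pool.Agent.Y121.AHS.extTw T.W.K ℚ_[ℓ] (E.χ g) j (clL e n a) =
        cmb ℚ_[ℓ] (wb e n) (E.χ g ^ j • a) := (cmb_smul (wb e n) (E.χ g ^ j) a).symm
    constructor
    · intro h
      exact cmb_inj (wb e n) (h1.symm.trans (h.trans h2))
    · intro h
      exact h1.trans ((congrArg (cmb ℚ_[ℓ] (wb e n)) h).trans h2.symm)
  constructor
  · rintro ⟨h1, Δ, hΔ, h2⟩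
    exact ⟨hdeg.1 h1, Δ, hΔ, fun g hg => (hfix g).1 (h2 g hg)⟩
  · rintro ⟨h1, Δ, hΔ, h2⟩
    exact ⟨hdeg.2 h1, Δ, hΔ, fun g hg => (hfix g).2 (h2 g hg)⟩

end Pool.Agent.N97.TB.Coord
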