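import Pool.Agent.N202.TB.Stm2
import Pool.Agent.N996.BP.Geo1
import Pool.Agent.N132.Lit.Conv

/-!
# Galois actions on the cohomology of the powers of a variety in coordinates
-/

set_option linter.unusedSectionVars false

open CategoryTheory AlgebraicGeometry TensorProduct

universe u

namespace Pool.Agent.N97.TB.Coord

open Module
open Pool.Agent.H914 Pool.Agent.H914.VarClass Pool.Agent.H914.VarClass.Obj
  Pool.Agent.H914.WeilCohomology
open Pool.Agent.Y121.AH (em em_mul em_map em_add em_smul em_gr em_zero)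
open Pool.Agent.Y133.Half
open Pool.Agent.N996.BP (kp kp_apply)
open Pool.Agent.N996.BP.Geo (kp_snoc sum_snoc)

variable {k : Type u} [Field k] {𝒱 : VarClass k} {ops : CycleOps 𝒱}
  {W : WeilCohomology.{u, 0} ops} {L : Type} [Field L] [Algebra W.K L] {X Z : 𝒱.Obj}

variable (W) in
/-- The element of `L` as a coefficient. -/
def sc (t : L) : (baseW W L).K := t

section Basis

variable {κ : Type} [Fintype κ] [DecidableEq κ] (b : Basis κ W.K (W.H Z))

variable (L) in
/-- The combination of the elements of the basis. -/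
noncomputable def cmb (z : κ → L) : (baseW W L).H Z := ∑ w, sc W (z w) • em W L (b w)

lemma cmb_eq (z : κ → L) : cmb L b z = (b.baseChange L).equivFun.symm z := by
  rw [Basis.equivFun_symm_apply]
  refine Finset.sum_congr rfl fun w _ => ?_
  rw [Basis.baseChange_apply]
  rfl

lemma cmb_bij : Function.Bijective (cmb L b) := by
  have h : cmb L b = fun z => (b.baseChange L).equivFun.symm z := funext fun z => cmb_eq b z
  rw [h]
  exact (b.baseChange L).equivFun.symm.bijective

lemma cmb_inj {z z' : κ → L} (h : cmb L b z = cmb L b z') : z = z' := (cmb_bij b).1 h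

lemma cmb_single (w : κ) : cmb L b (Pi.single w 1) = em W L (b w) := by
  rw [cmb, Finset.sum_eq_single w]
  · rw [Pi.single_eq_same]
    exact one_smul (baseW W L).K _
  · intro v _ hv
    rw [Pi.single_eq_of_ne hv]
    exact zero_smul (baseW W L).K _
  · intro h; exact absurd (Finset.mem_univ _) h

lemma cmb_smul (c : L) (z : κ → L) : cmb L b (c • z) = sc W c • cmb L b z := by
  rw [cmb, cmb, Finset.smul_sum]
  refine Finset.sum_congr rfl fun w _ => ?_
  rw [smul_smul]
  rfl

/-- Homogeneous elements in coordinates. -/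
lemma cmb_gr {dg : κ → ℕ} (hb : ∀ w, b w ∈ W.gr Z (dg w)) (z : κ → L) (m : ℕ) :
    cmb L b z ∈ (baseW W L).gr Z m ↔ ∀ w, z w ≠ 0 → dg w = m := by
  constructor
  · intro h w hw
    have h1 : H914.proj ((baseW W L).isInternal Z) m (cmb L b z) =
        cmb L b (fun w => if dg w = m then z w else 0) := by
      rw [cmb, map_sum, cmb]
      refine Finset.sum_congr rfl fun v _ => ?_
      rw [map_smul]
      by_cases hv : dg v = m
      · rw [if_pos hv, proj_same]
        rw [← hv]
        exact em_gr (hb v)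
      · rw [if_neg hv, proj_ne _ (em_gr (hb v)) hv, smul_zero]
        exact (zero_smul (baseW W L).K _).symm
    rw [proj_same _ h] at h1
    have h2 := congrFun (cmb_inj b h1) w
    by_contra hc
    rw [if_neg hc] at h2
    exact hw h2
  · intro h
    refine Submodule.sum_mem _ fun w _ => ?_
    by_cases hw : z w = 0
    · rw [hw]
      have h0 : sc W (0 : L) • em W L (b w) = 0 := zero_smul (baseW W L).K _
      rw [h0]
      exact Submodule.zero_mem _
    · refine Submodule.smul_mem _ _ ?_
      rw [← h w hw]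
      exact em_gr (hb w)

end Basis

section Words

variable {ι : Type} [Fintype ι] [DecidableEq ι] (e : Basis ι W.K (W.H X))

lemma wb_gr {deg : ι → ℕ} (he : ∀ j, e j ∈ W.gr X (deg j)) (n : ℕ) (w : Fin (n + 1) → ι) :
    wb e n w ∈ W.gr (pw X n) (∑ k, deg (w k)) := by
  induction n with
  | zero =>
    rw [wb_zero]
    have h1 : ∑ k : Fin (0 + 1), deg (w k) = deg (w 0) := Fin.sum_univ_one _
    rw [h1]
    exact he _
  | succ n ih =>
    rw [wb_succ, Fin.sum_univ_castSucc]
    exact W.mul_mem (W.map_mem _ (ih _)) (W.map_mem _ (he _))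

lemma wb_snoc (n : ℕ) (v : Fin (n + 1) → ι) (x : ι) :
    wb e (n + 1) (Fin.snoc (α := fun _ => ι) v x) =
      W.map (pfst X n) (wb e n v) * W.map (psnd X n) (e x) := by
  rw [wb_succ, Fin.snoc_last]
  congr 2
  congr 1
  funext i
  rw [Fin.snoc_castSucc]

/-- The operators `R Z` act on the family `b` by the matrix `g`. -/
def IsMat (R : ∀ Z : 𝒱.Obj, (baseW W L).H Z ≃ₐ[(baseW W L).K] (baseW W L).H Z) (Z : 𝒱.Obj)
    {κ : Type} [Fintype κ] (b : κ → W.H Z) (g : Matrix κ κ L) : Prop :=
  ∀ w, R Z (em W L (b w)) = ∑ v, sc W (g v w) • em W L (b v)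

variable {R : ∀ Z : 𝒱.Obj, (baseW W L).H Z ≃ₐ[(baseW W L).K] (baseW W L).H Z}

lemma isMat_zero {g : Matrix ι ι L} (h0 : IsMat R X e g) :
    IsMat R X (fun w : Fin 1 → ι => e (w 0)) (kp (Fin 1) g) := by
  intro w
  rw [← Equiv.sum_comp (Equiv.funUnique (Fin 1) ι).symm]
  refine (h0 (w 0)).trans (Finset.sum_congr rfl fun i _ => ?_)
  rw [kp_apply, Fintype.prod_unique]
  rfl

lemma isMat_zero' {g : Matrix ι ι L} (h0 : IsMat R X e g) :
    IsMat R (pw X 0) (wb e 0) (kp (Fin (0 + 1)) g) := by
  have h1 : (wb e 0 : (Fin 1 → ι) → W.H X) = fun w => e (w 0) := funext fun w => wb_zero e w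
  have h2 := isMat_zero e h0
  rw [← h1] at h2
  exact h2

lemma isMat_succ (hmap : ∀ {Y Z : 𝒱.Obj} (f : Y ⟶ Z) (x : (baseW W L).H Z),
      R Y ((baseW W L).map f x) = (baseW W L).map f (R Z x))
    {g : Matrix ι ι L} (h0 : IsMat R X e g) (n : ℕ)
    (ih : IsMat R (pw X n) (wb e n) (kp (Fin (n + 1)) g)) :
    IsMat R (pw X (n + 1)) (wb e (n + 1)) (kp (Fin (n + 1 + 1)) g) := by
  intro w
  rw [wb_succ, em_mul, ← em_map, ← em_map]
  refine (map_mul (R (pw X (n + 1))) _ _).trans ?_
  rw [hmap, hmap, ih, h0, map_sum, map_sum, Finset.sum_mul_sum, sum_snoc]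
  refine Finset.sum_congr rfl fun v _ => Finset.sum_congr rfl fun x _ => ?_
  rw [map_smul, map_smul, smul_mul_smul_comm, em_map, em_map, ← em_mul, ← wb_snoc, kp_snoc]
  rfl

/-- The operators on the words. -/
lemma isMat_wb (hmap : ∀ {Y Z : 𝒱.Obj} (f : Y ⟶ Z) (x : (baseW W L).H Z),
      R Y ((baseW W L).map f x) = (baseW W L).map f (R Z x))
    {g : Matrix ι ι L} (h0 : IsMat R X e g) (n : ℕ) :
    IsMat R (pw X n) (wb e n) (kp (Fin (n + 1)) g) := by
  induction n with
  | zero => exact isMat_zero' e h0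
  | succ n ih => exact isMat_succ e hmap h0 n ih

lemma isMat_cmb {κ : Type} [Fintype κ] [DecidableEq κ] (b : Basis κ W.K (W.H Z))
    {g : Matrix κ κ L} (h : IsMat R Z b g) (z : κ → L) :
    R Z (cmb L b z) = cmb L b (Matrix.mulVec g z) := by
  rw [cmb, map_sum, cmb]
  have h1 : ∀ w, R Z (sc W (z w) • em W L (b w)) =
      ∑ v, sc W (g v w * z w) • em W L (b v) := by
    intro w
    rw [map_smul, h, Finset.smul_sum]
    refine Finset.sum_congr rfl fun v _ => ?_
    rw [smul_smul, mul_comm]
    rfl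
  rw [Finset.sum_congr rfl fun w _ => h1 w, Finset.sum_comm]
  refine Finset.sum_congr rfl fun v _ => ?_
  rw [← Finset.sum_smul]
  rfl

end Words

section Mat

variable {κ : Type} [Fintype κ] [DecidableEq κ] (b : Basis κ W.K (W.H Z))

/-- The matrix of the operator. -/
noncomputable def mt (f : (baseW W L).H Z → (baseW W L).H Z) : Matrix κ κ L :=
  Matrix.of fun i j => (Function.surjInv (cmb_bij (L := L) b).2 (f (em W L (b j)))) i

lemma mt_spec (f : (baseW W L).H Z → (baseW W L).H Z) (j : κ) :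
    f (em W L (b j)) = ∑ i, sc W (mt b f i j) • em W L (b i) :=
  (Function.surjInv_eq (cmb_bij (L := L) b).2 (f (em W L (b j)))).symm

end Mat

end Pool.Agent.N97.TB.Coord
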