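import Pool.Agent.N204.TB.Stm

/-!
# Double commutant theorem and Clifford's theorem for sets of matrices
-/

namespace Pool.Agent.N97.TB

open Matrix
open Pool.Agent.N204.TB (Stb Semi S_DC S_CL)

variable {N : Type} [Fintype N] [DecidableEq N]

/-- `N → ℂ` as a module over a subalgebra. -/
@[reducible] noncomputable def md (G : Subalgebra ℂ (Matrix N N ℂ)) : Module G (N → ℂ) :=
  Module.compHom (N → ℂ)
    ((Matrix.toLinAlgEquiv' (R := ℂ) (n := N)).toAlgHom.toRingHom.comp G.val.toRingHom)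

lemma md_smul (G : Subalgebra ℂ (Matrix N N ℂ)) (x : G) (v : N → ℂ) :
    (md G).toDistribMulAction.toMulAction.toSMul.smul x v = (x : Matrix N N ℂ) *ᵥ v := rfl

/-- A subspace stable under `S` is stable under the algebra generated by `S`. -/
lemma stb_adjoin (S : Set (Matrix N N ℂ)) (U : Submodule ℂ (N → ℂ)) (hU : Stb S U)
    (x : Matrix N N ℂ) (hx : x ∈ Algebra.adjoin ℂ S) : ∀ u ∈ U, x *ᵥ u ∈ U := by
  induction hx using Algebra.adjoin_induction with
  | mem x hx => exact hU x hx
  | algebraMap r =>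
    intro u hu
    rw [Matrix.algebraMap_eq_diagonal]
    have : (Matrix.diagonal ((algebraMap ℂ (N → ℂ)) r)) *ᵥ u = r • u := by
      ext i
      simp [Matrix.mulVec_diagonal]
    rw [this]
    exact U.smul_mem _ hu
  | add x y _ _ hx hy =>
    intro u hu
    rw [Matrix.add_mulVec]
    exact U.add_mem (hx u hu) (hy u hu)
  | mul x y _ _ hx hy =>
    intro u hu
    rw [← Matrix.mulVec_mulVec]
    exact hx _ (hy u hu)

section

variable (S : Set (Matrix N N ℂ))

/-- The lattice of submodules. -/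
abbrev SM : Type := @Submodule (Algebra.adjoin ℂ S) (N → ℂ) _ _ (md _)

/-- The subspace of a submodule. -/
def toC (W : SM S) : Submodule ℂ (N → ℂ) :=
  letI := md (Algebra.adjoin ℂ S)
  { carrier := W.carrier
    add_mem' := fun ha hb => W.add_mem ha hb
    zero_mem' := W.zero_mem
    smul_mem' := fun c v hv => by
      have h := W.smul_mem (algebraMap ℂ (Algebra.adjoin ℂ S) c) hv
      have h1 : (algebraMap ℂ (Algebra.adjoin ℂ S) c) • v = c • v := by
        change (algebraMap ℂ (Matrix N N ℂ) c) *ᵥ v = _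
        rw [Matrix.algebraMap_eq_diagonal]
        ext i
        simp [Matrix.mulVec_diagonal]
      exact Eq.mp (congrArg (fun z => z ∈ W.carrier) h1) h }

lemma mem_toC (W : SM S) (v : N → ℂ) : v ∈ toC S W ↔ v ∈ W.carrier := Iff.rfl

lemma stb_toC (W : SM S) : Stb S (toC S W) := by
  intro s hs u hu
  let _ := md (Algebra.adjoin ℂ S)
  exact W.smul_mem (⟨s, Algebra.subset_adjoin hs⟩ : Algebra.adjoin ℂ S) hu

/-- The submodule of a stable subspace. -/
def ofC (U : Submodule ℂ (N → ℂ)) (hU : Stb S U) : SM S :=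
  letI := md (Algebra.adjoin ℂ S)
  { carrier := U
    add_mem' := fun ha hb => U.add_mem ha hb
    zero_mem' := U.zero_mem
    smul_mem' := fun x v hv => stb_adjoin S U hU x x.2 v hv }

lemma mem_ofC (U : Submodule ℂ (N → ℂ)) (hU : Stb S U) (v : N → ℂ) :
    v ∈ (ofC S U hU).carrier ↔ v ∈ U := Iff.rfl

lemma compl_of_semi (h : Semi S) :
    letI := md (Algebra.adjoin ℂ S)
    ComplementedLattice (Submodule (Algebra.adjoin ℂ S) (N → ℂ)) := by
  let _ := md (Algebra.adjoin ℂ S)
  refine ⟨fun W => ?_⟩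
  obtain ⟨U', hU', hc⟩ := h (toC S W) (stb_toC S W)
  refine ⟨ofC S U' hU', ?_⟩
  rw [isCompl_iff]
  constructor
  · rw [Submodule.disjoint_def]
    intro v hv hv'
    exact (Submodule.disjoint_def.1 hc.disjoint) v hv hv'
  · rw [codisjoint_iff, eq_top_iff]
    intro v _
    have h1 : v ∈ (toC S W) ⊔ U' := by
      rw [hc.sup_eq_top]
      trivial
    obtain ⟨a, ha, b, hb, rfl⟩ := Submodule.mem_sup.1 h1
    exact Submodule.add_mem_sup ha hb

lemma semi_of_compl (h : letI := md (Algebra.adjoin ℂ S)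
    ComplementedLattice (Submodule (Algebra.adjoin ℂ S) (N → ℂ))) : Semi S := by
  let _ := md (Algebra.adjoin ℂ S)
  intro U hU
  obtain ⟨W, hW⟩ := h.exists_isCompl (ofC S U hU)
  refine ⟨toC S W, stb_toC S W, ?_⟩
  rw [isCompl_iff]
  constructor
  · rw [Submodule.disjoint_def]
    intro v hv hv'
    exact (Submodule.disjoint_def.1 hW.disjoint) v hv hv'
  · rw [codisjoint_iff, eq_top_iff]
    intro v _
    have h1 : v ∈ (ofC S U hU) ⊔ W := by
      rw [hW.sup_eq_top]
      trivial
    obtain ⟨a, ha, b, hb, rfl⟩ := Submodule.mem_sup.1 h1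
    exact Submodule.add_mem_sup ha hb

end

/-- **Task DC.** -/
theorem dc : S_DC := by
  intro N _ _ S hS P hP
  let _ := md (Algebra.adjoin ℂ S)
  have hsm : ∀ (x : Algebra.adjoin ℂ S) (v : N → ℂ), x • v = (x : Matrix N N ℂ) *ᵥ v :=
    fun x v => rfl
  have hone : ∀ (c : ℂ) (v : N → ℂ), (algebraMap ℂ (Algebra.adjoin ℂ S) c) • v = c • v := by
    intro c v
    rw [hsm]
    change (algebraMap ℂ (Matrix N N ℂ) c) *ᵥ v = _
    rw [Matrix.algebraMap_eq_diagonal]
    ext i
    simp [Matrix.mulVec_diagonal]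
  have hss : IsSemisimpleModule (Algebra.adjoin ℂ S) (N → ℂ) :=
    { toComplementedLattice := compl_of_semi S hS }
  -- the density theorem
  have hcomm : ∀ (φ : Module.End (Algebra.adjoin ℂ S) (N → ℂ)) (v : N → ℂ),
      P *ᵥ (φ v) = φ (P *ᵥ v) := by
    intro φ v
    let φC : (N → ℂ) →ₗ[ℂ] (N → ℂ) :=
      { toFun := φ
        map_add' := φ.map_add
        map_smul' := fun c v => by
          have h1 := φ.map_smul (algebraMap ℂ (Algebra.adjoin ℂ S) c) v
          exact (congrArg φ (hone c v)).symm.trans (h1.trans (hone c (φ v))) }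
    have h1 : ∀ w, φ w = LinearMap.toMatrix' φC *ᵥ w := fun w => by
      rw [← Matrix.toLin'_apply, Matrix.toLin'_toMatrix']
      rfl
    have h2 := hP (LinearMap.toMatrix' φC) (fun y hy => by
      apply Matrix.toLin'.injective
      apply LinearMap.ext
      intro w
      rw [Matrix.toLin'_apply, Matrix.toLin'_apply, ← Matrix.mulVec_mulVec,
        ← Matrix.mulVec_mulVec, ← h1, ← h1]
      exact φ.map_smul (⟨y, Algebra.subset_adjoin hy⟩ : Algebra.adjoin ℂ S) w)
    rw [h1, h1, Matrix.mulVec_mulVec, Matrix.mulVec_mulVec, h2]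
  let f : Module.End (Module.End (Algebra.adjoin ℂ S) (N → ℂ)) (N → ℂ) :=
    { toFun := fun v => P *ᵥ v
      map_add' := fun v w => Matrix.mulVec_add _ _ _
      map_smul' := fun φ v => hcomm φ v }
  obtain ⟨r, hr⟩ := jacobson_density f (Finset.univ.image fun i : N => (Pi.single i 1 : N → ℂ))
  have h3 : P = (r : Matrix N N ℂ) := by
    ext i j
    have h4 := hr (Pi.single j 1) (Finset.mem_image_of_mem _ (Finset.mem_univ j))
    have h5 : P *ᵥ Pi.single j 1 = (r : Matrix N N ℂ) *ᵥ Pi.single j 1 := h4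
    rw [Matrix.mulVec_single_one, Matrix.mulVec_single_one] at h5
    exact congrFun h5 i
  rw [h3]
  exact r.2

/-- The preimage of a `T`-stable subspace under `s`. -/
lemma stb_comap {T : Set (Matrix N N ℂ)} {s s' : Matrix N N ℂ} (h1 : s' * s = 1)
    (h : ∀ t ∈ T, s * t * s' ∈ T) (U : Submodule ℂ (N → ℂ)) (hU : Stb T U) :
    Stb T (U.comap (Matrix.mulVecLin s)) := by
  intro t ht u hu
  rw [Submodule.mem_comap, Matrix.mulVecLin_apply] at hu ⊢
  have h2 := hU _ (h t ht) _ hu
  rwa [Matrix.mulVec_mulVec, Matrix.mul_assoc, h1, Matrix.mul_one,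
    ← Matrix.mulVec_mulVec] at h2

/-- **Task CL.** -/
theorem cl : S_CL := by
  intro N _ _ S T hS hST hSS
  let _ := md (Algebra.adjoin ℂ T)
  apply semi_of_compl
  have hfin : IsArtinian (Algebra.adjoin ℂ T) (N → ℂ) := by
    have h1 : IsArtinian ℂ (N → ℂ) := inferInstance
    rw [isArtinian_iff] at h1 ⊢
    let F : Submodule (Algebra.adjoin ℂ T) (N → ℂ) → Submodule ℂ (N → ℂ) := toC T
    have hF : ∀ a b, a < b → F a < F b := by
      intro a b hab
      rw [SetLike.lt_iff_le_and_exists] at hab ⊢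
      exact hab
    exact Subrelation.wf (fun {a b} hab => hF a b hab) (InvImage.wf F h1)
  have hat : IsAtomic (Submodule (Algebra.adjoin ℂ T) (N → ℂ)) := inferInstance
  apply complementedLattice_of_sSup_atoms_eq_top
  set Soc : Submodule (Algebra.adjoin ℂ T) (N → ℂ) := sSup {a | IsAtom a} with hSoc
  -- inverses
  have hinv : ∀ s ∈ S, ∃ s' ∈ S, s * s' = 1 ∧ s' * s = 1 ∧ (∀ t ∈ T, s' * t * s ∈ T) ∧
      ∀ t ∈ T, s * t * s' ∈ T := by
    intro s hs
    obtain ⟨s', hs', h1, h2, h3⟩ := hS s hs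
    obtain ⟨s'', hs'', h4, h5, h6⟩ := hS s' hs'
    have h7 : s'' = s := by
      calc s'' = (s * s') * s'' := by rw [h1, Matrix.one_mul]
        _ = s := by rw [Matrix.mul_assoc, h4, Matrix.mul_one]
    subst h7
    exact ⟨s', hs', h1, h2, h3, h6⟩
  -- the map on submodules
  have key : ∀ s ∈ S, ∀ s' : Matrix N N ℂ, s * s' = 1 → s' * s = 1 →
      (∀ t ∈ T, s' * t * s ∈ T) → (∀ t ∈ T, s * t * s' ∈ T) →
      ∀ W : Submodule (Algebra.adjoin ℂ T) (N → ℂ), IsAtom W →
      ∀ w ∈ W, s *ᵥ w ∈ Soc := by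
    intro s hs s' h1 h2 h3 h4 W hW w hw
    -- the image of `W`, as the preimage under `s'`
    let W' : Submodule (Algebra.adjoin ℂ T) (N → ℂ) :=
      ofC T ((toC T W).comap (Matrix.mulVecLin s'))
        (stb_comap h1 h3 _ (stb_toC T W))
    have hW' : ∀ v, v ∈ W' ↔ s' *ᵥ v ∈ W := fun v => Iff.rfl
    have hat' : IsAtom W' := by
      constructor
      · intro hbot
        apply hW.1
        rw [eq_bot_iff]
        intro v hv
        have h5 : s *ᵥ v ∈ W' := by
          rw [hW', Matrix.mulVec_mulVec, h2, Matrix.one_mulVec]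
          exact hv
        rw [hbot, Submodule.mem_bot] at h5
        rw [Submodule.mem_bot]
        have h6 : s' *ᵥ (s *ᵥ v) = 0 := by rw [h5, Matrix.mulVec_zero]
        rwa [Matrix.mulVec_mulVec, h2, Matrix.one_mulVec] at h6
      · intro B hB
        let B' : Submodule (Algebra.adjoin ℂ T) (N → ℂ) :=
          ofC T ((toC T B).comap (Matrix.mulVecLin s))
            (stb_comap h2 h4 _ (stb_toC T B))
        have hB' : ∀ v, v ∈ B' ↔ s *ᵥ v ∈ B := fun v => Iff.rfl
        have h5 : B' < W := by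
          rw [SetLike.lt_iff_le_and_exists] at hB ⊢
          constructor
          · intro v hv
            have h6 := hB.1 ((hB' v).1 hv)
            rwa [hW', Matrix.mulVec_mulVec, h2, Matrix.one_mulVec] at h6
          · obtain ⟨x, hx, hx'⟩ := hB.2
            refine ⟨s' *ᵥ x, (hW' x).1 hx, fun h6 => hx' ?_⟩
            rwa [hB', Matrix.mulVec_mulVec, h1, Matrix.one_mulVec] at h6
        have h6 := hW.2 B' h5
        rw [eq_bot_iff]
        intro v hv
        have h7 : s' *ᵥ v ∈ B' := by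
          rw [hB', Matrix.mulVec_mulVec, h1, Matrix.one_mulVec]
          exact hv
        rw [h6, Submodule.mem_bot] at h7
        rw [Submodule.mem_bot]
        have h8 : s *ᵥ (s' *ᵥ v) = 0 := by rw [h7, Matrix.mulVec_zero]
        rwa [Matrix.mulVec_mulVec, h1, Matrix.one_mulVec] at h8
    have hle : W' ≤ Soc := le_sSup hat'
    apply hle
    rw [hW', Matrix.mulVec_mulVec, h2, Matrix.one_mulVec]
    exact hw
  -- `Soc` is stable under `S`
  have hst : Stb S (toC T Soc) := by
    intro s hs u hu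
    obtain ⟨s', hs', h1, h2, h3, h4⟩ := hinv s hs
    let B' : Submodule (Algebra.adjoin ℂ T) (N → ℂ) :=
      ofC T ((toC T Soc).comap (Matrix.mulVecLin s))
        (stb_comap h2 h4 _ (stb_toC T Soc))
    have hle : Soc ≤ B' := by
      apply sSup_le
      intro W hW v hv
      exact key s hs s' h1 h2 h3 h4 W hW v hv
    exact hle hu
  obtain ⟨C, hC, hcompl⟩ := hSS _ hst
  have hCT := hST C hC
  have hCbot : ofC T C hCT = (⊥ : Submodule (Algebra.adjoin ℂ T) (N → ℂ)) := by
    rcases IsAtomic.eq_bot_or_exists_atom_le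
      (ofC T C hCT : Submodule (Algebra.adjoin ℂ T) (N → ℂ)) with h | ⟨a, ha, hle⟩
    · exact h
    · exfalso
      apply ha.1
      rw [eq_bot_iff]
      intro v hv
      rw [Submodule.mem_bot]
      have h1 : a ≤ Soc := le_sSup ha
      exact (Submodule.disjoint_def.1 hcompl.disjoint) v (h1 hv) (hle hv)
  rw [eq_top_iff]
  intro v _
  have h1 : v ∈ (toC T Soc) ⊔ C := by
    rw [hcompl.sup_eq_top]
    trivial
  obtain ⟨a, ha, b, hb, rfl⟩ := Submodule.mem_sup.1 h1
  have h2 : b ∈ (ofC T C hCT : Submodule (Algebra.adjoin ℂ T) (N → ℂ)) := hb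
  rw [hCbot, Submodule.mem_bot] at h2
  rw [h2, add_zero]
  exact ha

end Pool.Agent.N97.TB
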