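import Pool.Agent.N204.TB.GStm

/-!
# The class of a Galois-compatible form and of the parity operator are sums of Tate classes
-/

set_option linter.unusedSectionVars false

open CategoryTheory AlgebraicGeometry TensorProduct

universe u

namespace Pool.Agent.N97.TB.Geo2

open Matrix
open Pool.Agent.H914 Pool.Agent.H914.VarClass Pool.Agent.H914.VarClass.Obj
  Pool.Agent.H914.WeilCohomology
open Pool.Agent.Y121.AH (HodgeTheory CW em em_mul em_map em_tr em_add em_smul em_gr em_push ex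
  ex_rat em_zero)
open Pool.Agent.Y133.Half
open Pool.Agent.Y132.AH (GaloisData IsTate)
open Pool.Agent.N996.BP (kp UCol cQ)
open Pool.Agent.N996.BP.Geo (emb dp cc emb_surj sum_two lop em_extOp em_one)
open Pool.Agent.N204.TB

variable {k : Type u} [Field k] {𝒱 : VarClass k} {ops : CycleOps 𝒱}

section Gen

variable {V : WeilCohomology.{u, 0} ops} {Z : 𝒱.Obj}

/-- The trace of the product with a component. -/
lemma tr_mul_proj {s : ℕ} {a : V.H Z} (ha : a ∈ V.gr Z s) (m : ℕ) (x : V.H Z) :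
    V.tr Z (a * H914.proj (V.isInternal Z) m x) =
      if s + m = 2 * Z.dim then V.tr Z (a * x) else 0 := by
  refine gr_induction (V.isInternal Z) (p := fun x =>
    V.tr Z (a * H914.proj (V.isInternal Z) m x) =
      if s + m = 2 * Z.dim then V.tr Z (a * x) else 0) ?_ ?_ x
  · intro j x hx
    by_cases hj : j = m
    · subst hj
      rw [proj_same _ hx]
      split_ifs with h
      · rfl
      · exact V.tr_eq_zero (V.mul_mem ha hx) h
    · rw [proj_ne _ hx hj, mul_zero, map_zero]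
      split_ifs with h
      · exact (V.tr_eq_zero (V.mul_mem ha hx) (by omega)).symm
      · rfl
  · intro x y hx hy
    rw [map_add, mul_add, map_add, hx, hy, mul_add, map_add]
    split_ifs
    · rfl
    · rw [add_zero]

/-- An element is in a subspace if its components are. -/
lemma mem_of_proj (U : Submodule V.K (V.H Z)) (x : V.H Z)
    (h : ∀ m, H914.proj (V.isInternal Z) m x ∈ U) : x ∈ U := by
  have h1 : ∀ x : V.H Z, ∃ s : ℕ, x = ∑ i ∈ Finset.range s, H914.proj (V.isInternal Z) i x := by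
    intro x
    have hsum := sum_proj (V.isInternal Z) (N := 2 * Z.dim + 1)
      (fun i hi => V.gr_eq_bot Z i (by omega))
    refine ⟨2 * Z.dim + 1, ?_⟩
    have h2 := congrArg (fun F => F x) hsum
    simp only [LinearMap.sum_apply] at h2
    exact h2.symm
  obtain ⟨s, hs⟩ := h1 x
  rw [hs]
  exact Submodule.sum_mem _ fun i _ => h i

variable {Γ : Type} [Group Γ] (G : GaloisData V Γ)

lemma act_inv (g : Γ) (x : V.H Z) : G.act Z g (G.act Z g⁻¹ x) = x := by
  rw [← AlgEquiv.mul_apply, ← map_mul, mul_inv_cancel, map_one, AlgEquiv.one_apply]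

/-- A criterion for Tate classes. -/
lemma isTate_of_tr {m j : ℕ} {y : V.H Z} (hy : y ∈ V.gr Z m) (hm : m = 2 * j) (c : Γ → V.K)
    (hc : ∀ g, (G.χ g : V.K) ^ Z.dim * c g = (G.χ g : V.K) ^ j)
    (htr : ∀ g x, V.tr Z (G.act Z g⁻¹ x * y) = c g * V.tr Z (x * y)) : IsTate G Z j y := by
  subst hm
  refine ⟨hy, ⊤, inferInstance, fun g _ => ?_⟩
  rw [← sub_eq_zero]
  apply nondeg_right
  intro b
  rw [mul_sub, map_sub, sub_eq_zero]
  have h1 : V.tr Z (b * G.act Z g y) = (G.χ g : V.K) ^ Z.dim * V.tr Z (G.act Z g⁻¹ b * y) := by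
    conv_lhs => rw [← act_inv G g b]
    rw [← map_mul, (G.galois Z).tr_act]
  change V.tr Z (b * G.act Z g y) = _
  rw [h1, htr, mul_smul_comm, map_smul, smul_eq_mul, ← mul_assoc, hc]

end Gen

variable {T : HodgeTheory ops} {Γ : Type} [Group Γ] (G : GaloisData (CW T) Γ) {X : 𝒱.Obj}

section A

variable {ι : Type} [Fintype ι] [DecidableEq ι] (e : Module.Basis ι T.W.K (T.W.H X))
  {deg : ι → ℕ} {ρ : Γ →* Matrix ι ι ℂ}

lemma wb_gr (he : ∀ j, e j ∈ T.W.gr X (deg j)) (w : Fin (1 + 1) → ι) :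
    wb e 1 w ∈ T.W.gr (pw X 1) (deg (w 0) + deg (w 1)) := by
  have h1 : wb e 1 w = _ := wb_succ e 0 w
  rw [h1, wb_zero]
  exact T.W.mul_mem (T.W.map_mem _ (he _)) (T.W.map_mem _ (he _))

lemma emb_single (w : Fin (1 + 1) → ι) :
    emb e 1 (Pi.single w 1) = em T.W ℂ (wb e 1 w) := by
  rw [emb, Finset.sum_eq_single w]
  · rw [Pi.single_eq_same]
    exact one_smul (CW T).K _
  · intro v _ hv
    rw [Pi.single_eq_of_ne hv]
    exact zero_smul (CW T).K _
  · intro h; exact absurd (Finset.mem_univ _) h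

lemma dim_pw : (pw X 1).dim = 2 * X.dim := by
  have h : (pw X 1).dim = X.dim + X.dim := rfl
  rw [h, two_mul]

theorem partA (he : ∀ j, e j ∈ T.W.gr X (deg j)) (hρ : IsGalMat G e ρ) (Q : Matrix ι ι ℚ)
    (hQ : ∀ i j, Q i j ≠ 0 → deg i = deg j)
    (hQρ : ∀ g i j, ((ρ g)ᵀ * cQ Q * ρ g) i j =
      (show ℂ from ((G.χ g : (CW T).Kˣ) : (CW T).K)) ^ deg i * cQ Q i j) :
    ∃ q : T.W.H (pw X 1), (∀ w, T.W.tr (pw X 1) (wb e 1 w * q) = ((Q (w 0) (w 1) : ℚ) : T.W.K)) ∧
      em T.W ℂ q ∈ TSum G (pw X 1) := by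
  obtain ⟨q, hq⟩ := exists_dual_class T.W (X := pw X 1)
    ((wb e 1).constr T.W.K fun w => ((Q (w 0) (w 1) : ℚ) : T.W.K))
  have hq' : ∀ w, T.W.tr (pw X 1) (wb e 1 w * q) = ((Q (w 0) (w 1) : ℚ) : T.W.K) := by
    intro w
    rw [hq, Module.Basis.constr_basis]
  refine ⟨q, hq', ?_⟩
  have hval : ∀ z, (CW T).tr (pw X 1) (emb e 1 z * em T.W ℂ q) =
      cc T (∑ w, z w * cQ Q (w 0) (w 1)) := by
    intro z
    rw [emb, Finset.sum_mul, map_sum]
    have h1 : ∀ w, (CW T).tr (pw X 1) (cc T (z w) • em T.W ℂ (wb e 1 w) * em T.W ℂ q) =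
        cc T (z w * cQ Q (w 0) (w 1)) := by
      intro w
      rw [smul_mul_assoc, map_smul, ← em_mul, em_tr, hq', ex_rat]
      rfl
    rw [Finset.sum_congr rfl fun w _ => h1 w]
    rfl
  -- the components
  apply mem_of_proj
  intro m
  set y := H914.proj ((CW T).isInternal (pw X 1)) m (em T.W ℂ q) with hy
  have hym : y ∈ (CW T).gr (pw X 1) m := proj_mem _ _ _
  have hgr : ∀ w, em T.W ℂ (wb e 1 w) ∈ (CW T).gr (pw X 1) (deg (w 0) + deg (w 1)) :=
    fun w => em_gr (wb_gr e he w)
  -- the values on words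
  have hword : ∀ w, (CW T).tr (pw X 1) (em T.W ℂ (wb e 1 w) * y) =
      if deg (w 0) + deg (w 1) + m = 2 * (pw X 1).dim then cc T (cQ Q (w 0) (w 1)) else 0 := by
    intro w
    rw [hy, tr_mul_proj (hgr w)]
    refine if_congr Iff.rfl ?_ rfl
    rw [← emb_single, hval, Finset.sum_eq_single w]
    · rw [Pi.single_eq_same, one_mul]
    · intro v _ hv
      rw [Pi.single_eq_of_ne hv, zero_mul]
    · intro h; exact absurd (Finset.mem_univ _) h
  have hact : ∀ g w, (CW T).tr (pw X 1) (G.act (pw X 1) g (em T.W ℂ (wb e 1 w)) * y) =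
      if deg (w 0) + deg (w 1) + m = 2 * (pw X 1).dim then
        cc T (((ρ g)ᵀ * cQ Q * ρ g) (w 0) (w 1)) else 0 := by
    intro g w
    rw [hy, tr_mul_proj ((G.galois (pw X 1)).gr_mem g _ _ (hgr w))]
    refine if_congr Iff.rfl ?_ rfl
    rw [← emb_single, hρ g 1, hval, ← sum_two]
    congr 1
    refine Finset.sum_congr rfl fun v _ => ?_
    rw [Matrix.mulVec_single_one]
    rfl
  -- all elements are combinations of words
  have hspan : ∀ (F : (CW T).H (pw X 1) →ₗ[(CW T).K] (CW T).K)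
      (F' : (CW T).H (pw X 1) →ₗ[(CW T).K] (CW T).K),
      (∀ w, F (em T.W ℂ (wb e 1 w)) = F' (em T.W ℂ (wb e 1 w))) → ∀ x, F x = F' x := by
    intro F F' h x
    obtain ⟨z, rfl⟩ := emb_surj e 1 x
    rw [emb, map_sum, map_sum]
    refine Finset.sum_congr rfl fun w _ => ?_
    rw [map_smul, map_smul, h]
  -- is there a word on which the component does not vanish
  by_cases hex : ∃ w : Fin (1 + 1) → ι, deg (w 0) + deg (w 1) + m = 2 * (pw X 1).dim ∧
      Q (w 0) (w 1) ≠ 0
  · obtain ⟨w₀, hw₀, hQ₀⟩ := hex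
    obtain ⟨i, hi⟩ : ∃ i, i = deg (w₀ 0) := ⟨_, rfl⟩
    have h1 := hQ _ _ hQ₀
    rw [dim_pw] at hw₀
    refine Submodule.subset_span ⟨2 * X.dim - i, isTate_of_tr G hym (by omega)
      (fun g => (G.χ g⁻¹ : (CW T).K) ^ i) ?_ ?_⟩
    · intro g
      have h2 : (pw X 1).dim = (2 * X.dim - i) + i := by rw [dim_pw]; omega
      rw [h2, pow_add, mul_assoc, ← mul_pow]
      have h3 : (G.χ g : (CW T).K) * (G.χ g⁻¹ : (CW T).K) = 1 := by
        rw [← Units.val_mul, ← map_mul, mul_inv_cancel, map_one, Units.val_one]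
      rw [h3, one_pow, mul_one]
    · intro g x
      refine hspan ((CW T).tr (pw X 1) ∘ₗ (LinearMap.mulRight (CW T).K y) ∘ₗ
          (G.act (pw X 1) g⁻¹).toAlgHom.toLinearMap)
        ((G.χ g⁻¹ : (CW T).K) ^ i • ((CW T).tr (pw X 1) ∘ₗ (LinearMap.mulRight (CW T).K y)))
        (fun w => ?_) x
      change (CW T).tr (pw X 1) (G.act (pw X 1) g⁻¹ (em T.W ℂ (wb e 1 w)) * y) =
        (G.χ g⁻¹ : (CW T).K) ^ i * (CW T).tr (pw X 1) (em T.W ℂ (wb e 1 w) * y)
      rw [hact, hword, hQρ]
      by_cases hc : deg (w 0) + deg (w 1) + m = 2 * (pw X 1).dim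
      · rw [if_pos hc, if_pos hc]
        by_cases hz : Q (w 0) (w 1) = 0
        · have h4 : cQ Q (w 0) (w 1) = 0 := by
            rw [cQ, Matrix.map_apply, hz, Rat.cast_zero]
          rw [h4, mul_zero]
          exact (mul_zero (_ : (CW T).K)).symm
        · have h4 := hQ _ _ hz
          rw [dim_pw] at hc
          have h5 : deg (w 0) = i := by omega
          rw [h5]
          rfl
      · rw [if_neg hc, if_neg hc, mul_zero]
  · have h0 : y = 0 := by
      apply nondeg_right
      intro b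
      refine hspan ((CW T).tr (pw X 1) ∘ₗ (LinearMap.mulRight (CW T).K y)) 0 (fun w => ?_) b
      change (CW T).tr (pw X 1) (em T.W ℂ (wb e 1 w) * y) = 0
      rw [hword]
      split_ifs with hc
      · by_contra hne
        apply hex
        refine ⟨w, hc, fun hz => hne ?_⟩
        have h4 : cQ Q (w 0) (w 1) = 0 := by
          rw [cQ, Matrix.map_apply, hz, Rat.cast_zero]
        rw [h4]
        rfl
      · rfl
    rw [h0]
    exact Submodule.zero_mem _

end A

section B

section Gen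

variable {V : WeilCohomology.{u, 0} ops} {X : 𝒱.Obj}

/-- The operator preserves the degrees. -/
lemma ext_proj (m : ℕ) (z : V.H (X.prod X)) :
    H914.proj (V.isInternal (X.prod X)) m (extOp V (H914.par (V.isInternal X)) 1 z) =
      extOp V (H914.par (V.isInternal X)) 1 (H914.proj (V.isInternal (X.prod X)) m z) := by
  refine V.kunneth_induction (p := fun z =>
    H914.proj (V.isInternal (X.prod X)) m (extOp V (H914.par (V.isInternal X)) 1 z) =
      extOp V (H914.par (V.isInternal X)) 1 (H914.proj (V.isInternal (X.prod X)) m z)) ?_ ?_ z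
  · intro a b ha hb; simp only [map_add, ha, hb]
  · intro i j a ha b hb
    have h1 : V.map (fst X X) a * V.map (snd X X) b ∈ V.gr (X.prod X) (i + j) :=
      V.mul_mem (V.map_mem _ ha) (V.map_mem _ hb)
    have h2 : extOp V (H914.par (V.isInternal X)) 1 (V.map (fst X X) a * V.map (snd X X) b) =
        (-1 : V.K) ^ i • (V.map (fst X X) a * V.map (snd X X) b) := by
      rw [extOp_tmul, PH.par (PH.of ha), map_smul, smul_mul_assoc]
      rfl
    rw [h2, map_smul]
    by_cases hm : i + j = m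
    · subst hm
      rw [proj_same _ h1, h2]
    · rw [proj_ne _ h1 hm, smul_zero, map_zero]

lemma ext_gr {m : ℕ} {z : V.H (X.prod X)} (hz : z ∈ V.gr (X.prod X) m) :
    extOp V (H914.par (V.isInternal X)) 1 z ∈ V.gr (X.prod X) m := by
  have h1 := ext_proj m z
  rw [proj_same _ hz] at h1
  rw [← h1]
  exact proj_mem _ _ _

variable {Γ : Type} [Group Γ] (G : GaloisData V Γ)

lemma act_par (g : Γ) (x : V.H X) : G.act X g (H914.par (V.isInternal X) x) =
    H914.par (V.isInternal X) (G.act X g x) := by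
  refine gr_induction (V.isInternal X) (p := fun x => G.act X g (H914.par (V.isInternal X) x) =
    H914.par (V.isInternal X) (G.act X g x)) ?_ ?_ x
  · intro i x hx
    rw [PH.par (PH.of hx), PH.par (PH.of ((G.galois X).gr_mem g _ _ hx)), map_smul]
  · intro x y hx hy; simp only [map_add, hx, hy]

lemma act_ext (g : Γ) (z : V.H (X.prod X)) :
    G.act (X.prod X) g (extOp V (H914.par (V.isInternal X)) 1 z) =
      extOp V (H914.par (V.isInternal X)) 1 (G.act (X.prod X) g z) := by
  refine V.kunneth_induction (p := fun z =>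
    G.act (X.prod X) g (extOp V (H914.par (V.isInternal X)) 1 z) =
      extOp V (H914.par (V.isInternal X)) 1 (G.act (X.prod X) g z)) ?_ ?_ z
  · intro a b ha hb; simp only [map_add, ha, hb]
  · intro i j a _ b _
    have hm : ∀ (f : X.prod X ⟶ X) (c : V.H X), G.act (X.prod X) g (V.map f c) =
      V.map f (G.act X g c) := fun f c => G.map f g c
    rw [extOp_tmul, map_mul, hm, hm, act_par, map_mul, hm, hm, extOp_tmul]
    rfl

lemma isTate_dp : IsTate G (X.prod X) X.dim
    (extOp V (H914.par (V.isInternal X)) 1 (V.push (diag X) 1)) := by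
  have h1 : V.push (diag X) (1 : V.H X) ∈ V.gr (X.prod X) (2 * X.dim) := by
    refine Pool.Agent.N132.HT.push_gr1 (diag X) (j := 0) (l := X.dim) ?_ ?_
    · have h : (X.prod X).dim = X.dim + X.dim := rfl
      rw [h, zero_add]
    · rw [mul_zero]
      exact V.one_mem X
  refine ⟨ext_gr h1, ⊤, inferInstance, fun g _ => ?_⟩
  change G.act (X.prod X) g _ = _
  rw [act_ext, ← map_smul]
  congr 1
  have h2 := Pool.Agent.N132.HT.act_push G g (diag X) 1
  have hne : (G.χ g : V.K) ≠ 0 := Units.ne_zero _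
  have h3 : (X.prod X).dim = X.dim + X.dim := rfl
  have h4 : G.act X g 1 = 1 := map_one _
  rw [h4, h3, pow_add, mul_smul] at h2
  exact smul_right_injective _ (pow_ne_zero _ hne) h2

end Gen

lemma par_em (x : T.W.H X) : H914.par ((CW T).isInternal X) (em T.W ℂ x) =
    em T.W ℂ (H914.par (T.W.isInternal X) x) := by
  refine gr_induction (T.W.isInternal X) (p := fun x =>
    H914.par ((CW T).isInternal X) (em T.W ℂ x) =
      em T.W ℂ (H914.par (T.W.isInternal X) x)) ?_ ?_ x
  · intro i x hx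
    rw [PH.par (PH.of hx), PH.par (PH.of (em_gr hx)), em_smul]
    congr 1
    rw [ex, map_pow, map_neg, map_one]
    rfl
  · intro a b ha hb; rw [map_add, em_add, em_add, map_add, ha, hb]

lemma ext_em (z : T.W.H (X.prod X)) :
    em T.W ℂ (extOp T.W (H914.par (T.W.isInternal X)) 1 z) =
      extOp (CW T) (H914.par ((CW T).isInternal X)) 1 (em T.W ℂ z) := by
  refine T.W.kunneth_induction (p := fun z =>
    em T.W ℂ (extOp T.W (H914.par (T.W.isInternal X)) 1 z) =
      extOp (CW T) (H914.par ((CW T).isInternal X)) 1 (em T.W ℂ z)) ?_ ?_ z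
  · intro a b ha hb; rw [map_add, em_add, ha, hb, em_add, map_add]
  · intro i j a _ b _
    rw [extOp_tmul, em_mul, ← em_map, ← em_map, ← par_em, em_mul, ← em_map, ← em_map, extOp_tmul]
    rfl

theorem partB : em T.W ℂ (dp T.W X) ∈ TSum G (pw X 1) := by
  refine Submodule.subset_span ⟨X.dim, ?_⟩
  have h1 : em T.W ℂ (dp T.W X) =
      extOp (CW T) (H914.par ((CW T).isInternal X)) 1 ((CW T).push (diag X) 1) := by
    refine (ext_em (T.W.push (diag X) 1)).trans ?_
    rw [← em_push]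
    rfl
  rw [h1]
  exact isTate_dp G

end B

/-- **Task GEO2.** -/
theorem geo2 : S_GEO2.{u} := by
  intro k _ 𝒱 ops T Γ _ G X ι _ _ e deg ρ he hρ
  exact ⟨fun Q hQ hQρ => partA G e he hρ Q hQ hQρ, partB G⟩

end Pool.Agent.N97.TB.Geo2
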